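import Pool.Agent.Helper36_XQ.Stmt5r

/-!
Squad XQ, part E4, module RCO: combinatorics of the event `P2` (helper46).
-/

set_option autoImplicit false

namespace Pool.Agent.XQ.K4.H46

open Pool.Agent.XQ.K4

/-- the sequence with natural indices -/
def ex {m : ℕ} (B : Fin (m + 1) → Finset (Fin 4)) (i : ℕ) : Finset (Fin 4) :=
  B (Fin.ofNat (m + 1) i)

theorem ofNat_of_lt {m i : ℕ} (h : i < m + 1) : Fin.ofNat (m + 1) i = ⟨i, h⟩ := by
  apply Fin.ext
  show i % (m + 1) = i
  exact Nat.mod_eq_of_lt h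

theorem ex_val {m : ℕ} (B : Fin (m + 1) → Finset (Fin 4)) (j : Fin (m + 1)) :
    ex B j.val = B j := by
  unfold ex
  rw [ofNat_of_lt j.isLt]

/-- explicit form of `Qg` -/
theorem Qg_iff (s : Fin 4) (R : (m : ℕ) → (Fin (m + 1) → Finset (Fin 4)) → Prop) (m : ℕ) :
    ∀ A : Fin (m + 1) → Finset (Fin 4), Qg s R m A ↔
      ∃ (k m' : ℕ) (h : m = k + 1 + m'), s ∈ ex A k ∧ (∀ l : ℕ, l < k → s ∉ ex A l) ∧
        R m' (fun j : Fin (m' + 1) => A ⟨k + 1 + j.val, by have := j.isLt; omega⟩) := by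
  induction m with
  | zero =>
    intro A
    constructor
    · intro h
      exact h.elim
    · rintro ⟨k, m', h, -⟩
      omega
  | succ m ih =>
    intro A
    show (s ∉ A 0 ∧ Qg s R m (fun j => A j.succ)) ∨ (s ∈ A 0 ∧ R m (fun j => A j.succ)) ↔ _
    rw [ih]
    have e0 : ex A 0 = A 0 := ex_val A 0
    have e1 : ∀ l : ℕ, l < m + 1 → ex (fun j : Fin (m + 1) => A j.succ) l = ex A (l + 1) := by
      intro l hl
      have h1 := ex_val (fun j : Fin (m + 1) => A j.succ) ⟨l, hl⟩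
      have h2 := ex_val A (Fin.succ ⟨l, hl⟩)
      rw [h1]
      exact h2.symm
    constructor
    · rintro (⟨h0, k, m', h, h1, h2, h3⟩ | ⟨h0, h1⟩)
      · refine ⟨k + 1, m', by omega, ?_, ?_, ?_⟩
        · rw [← e1 k (by omega)]
          exact h1
        · intro l hl
          rcases Nat.eq_zero_or_pos l with rfl | hp
          · rw [e0]
            exact h0
          · obtain ⟨i, rfl⟩ : ∃ i, l = i + 1 := ⟨l - 1, by omega⟩
            rw [← e1 i (by omega)]
            exact h2 i (by omega)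
        · convert h3 using 2
          rename_i j
          apply congrArg A
          apply Fin.ext
          show k + 1 + 1 + j.val = k + 1 + j.val + 1
          omega
      · refine ⟨0, m, by omega, by rw [e0]; exact h0, fun l hl => absurd hl (by omega), ?_⟩
        convert h1 using 2
        rename_i j
        apply congrArg A
        apply Fin.ext
        show 0 + 1 + j.val = j.val + 1
        omega
    · rintro ⟨k, m', h, h1, h2, h3⟩
      rcases Nat.eq_zero_or_pos k with rfl | hp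
      · right
        refine ⟨by rw [← e0]; exact h1, ?_⟩
        obtain rfl : m' = m := by omega
        convert h3 using 2
        rename_i j
        apply congrArg A
        apply Fin.ext
        show j.val + 1 = 0 + 1 + j.val
        omega
      · left
        obtain ⟨i, rfl⟩ : ∃ i, k = i + 1 := ⟨k - 1, by omega⟩
        refine ⟨by rw [← e0]; exact h2 0 (by omega), i, m', by omega, ?_, ?_, ?_⟩
        · rw [e1 i (by omega)]
          exact h1
        · intro l hl
          rw [e1 l (by omega)]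
          exact h2 (l + 1) (by omega)
        · convert h3 using 2
          rename_i j
          apply congrArg A
          apply Fin.ext
          show i + 1 + j.val + 1 = i + 1 + 1 + j.val
          omega

/-- explicit form of `P2` -/
def PP (s t : Fin 4) (O E : Finset (Fin 4)) (N : ℕ) (a : ℕ → Finset (Fin 4)) : Prop :=
  ∃ k p : ℕ, k < p ∧ p < N ∧ s ∈ a k ∧ (∀ l : ℕ, l < k → s ∉ a l) ∧ t ∈ a p ∧
    (∀ l : ℕ, p < l → l < N → t ∉ a l) ∧ (∀ i ∈ O, ∃ l : ℕ, k < l ∧ l < p ∧ i ∈ a l) ∧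
    ∀ l : ℕ, k < l → l < p → Disjoint (a l) E

theorem nest (s t : Fin 4) {O E : Finset (Fin 4)} (hO : O.Nonempty) (m : ℕ)
    (B : Fin (m + 1) → Finset (Fin 4)) :
    Qg s (fun k B' => Qg t (fun _ B'' => Vis O E B'') k (rs B')) m B ↔
      PP s t O E (m + 1) (ex B) := by
  rw [Qg_iff]
  constructor
  · rintro ⟨k, m', h, h1, h2, h3⟩
    rw [Qg_iff] at h3
    obtain ⟨k', m'', h', h4, h5, h6⟩ := h3
    have e : ∀ l : ℕ, l < m' + 1 → ex (rs (fun j : Fin (m' + 1) =>
        B ⟨k + 1 + j.val, by have := j.isLt; omega⟩)) l = ex B (m - l) := by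
      intro l hl
      have e1 := ex_val (rs (fun j : Fin (m' + 1) =>
        B ⟨k + 1 + j.val, by have := j.isLt; omega⟩)) ⟨l, hl⟩
      rw [e1]
      have e2 := ex_val B ⟨m - l, by omega⟩
      show _ = ex B (m - l)
      rw [show ex B (m - l) = B ⟨m - l, by omega⟩ from e2]
      show B _ = B _
      apply congrArg B
      apply Fin.ext
      show k + 1 + (m' + 1 - (l + 1)) = m - l
      omega
    have e' : ∀ (l : ℕ) (hl : l < m'' + 1), (fun j : Fin (m'' + 1) => rs (fun j : Fin (m' + 1) =>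
        B ⟨k + 1 + j.val, by have := j.isLt; omega⟩) ⟨k' + 1 + j.val, by have := j.isLt; omega⟩)
          ⟨l, hl⟩ = ex B (m - (k' + 1 + l)) := by
      intro l hl
      rw [← e (k' + 1 + l) (by omega)]
      exact (ex_val (rs (fun j : Fin (m' + 1) =>
        B ⟨k + 1 + j.val, by have := j.isLt; omega⟩)) ⟨k' + 1 + l, by omega⟩).symm
    refine ⟨k, m - k', by omega, by omega, h1, h2, ?_, ?_, ?_, ?_⟩
    · rw [← e k' (by omega)]
      exact h4
    · intro l hl hlN
      have := h5 (m - l) (by omega)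
      rw [e _ (by omega)] at this
      rwa [show m - (m - l) = l by omega] at this
    · intro i hi
      obtain ⟨j, hj⟩ := h6.1 i hi
      rw [e' j.val j.isLt] at hj
      exact ⟨m - (k' + 1 + j.val), by have := j.isLt; omega, by have := j.isLt; omega, hj⟩
    · intro l hl hlp
      have := h6.2 ⟨m - l - k' - 1, by omega⟩
      rw [e' (m - l - k' - 1) (by omega)] at this
      rwa [show m - (k' + 1 + (m - l - k' - 1)) = l by omega] at this
  · rintro ⟨k, p, hkp, hpN, h1, h2, h3, h4, h5, h6⟩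
    obtain ⟨i0, hi0⟩ := hO
    obtain ⟨l0, hl0, hl0', -⟩ := h5 i0 hi0
    obtain ⟨m', hm'⟩ : ∃ m', m = k + 1 + m' := ⟨m - k - 1, by omega⟩
    refine ⟨k, m', hm', h1, h2, ?_⟩
    rw [Qg_iff]
    obtain ⟨m'', hm''⟩ : ∃ m'', m' = (m - p) + 1 + m'' := ⟨m' - (m - p) - 1, by omega⟩
    have e : ∀ l : ℕ, l < m' + 1 → ex (rs (fun j : Fin (m' + 1) =>
        B ⟨k + 1 + j.val, by have := j.isLt; omega⟩)) l = ex B (m - l) := by
      intro l hl
      have e1 := ex_val (rs (fun j : Fin (m' + 1) =>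
        B ⟨k + 1 + j.val, by have := j.isLt; omega⟩)) ⟨l, hl⟩
      rw [e1]
      have e2 := ex_val B ⟨m - l, by omega⟩
      show _ = ex B (m - l)
      rw [show ex B (m - l) = B ⟨m - l, by omega⟩ from e2]
      show B _ = B _
      apply congrArg B
      apply Fin.ext
      show k + 1 + (m' + 1 - (l + 1)) = m - l
      omega
    have e' : ∀ (l : ℕ) (hl : l < m'' + 1), (fun j : Fin (m'' + 1) => rs (fun j : Fin (m' + 1) =>
        B ⟨k + 1 + j.val, by have := j.isLt; omega⟩) ⟨m - p + 1 + j.val, by have := j.isLt; omega⟩)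
          ⟨l, hl⟩ = ex B (m - (m - p + 1 + l)) := by
      intro l hl
      rw [← e (m - p + 1 + l) (by omega)]
      exact (ex_val (rs (fun j : Fin (m' + 1) =>
        B ⟨k + 1 + j.val, by have := j.isLt; omega⟩)) ⟨m - p + 1 + l, by omega⟩).symm
    refine ⟨m - p, m'', hm'', ?_, ?_, ?_, ?_⟩
    · rw [e _ (by omega), show m - (m - p) = p by omega]
      exact h3
    · intro l hl
      rw [e _ (by omega)]
      exact h4 _ (by omega) (by omega)
    · intro i hi
      obtain ⟨l, hl, hlp, hil⟩ := h5 i hi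
      refine ⟨⟨p - 1 - l, by omega⟩, ?_⟩
      rw [e' (p - 1 - l) (by omega), show m - (m - p + 1 + (p - 1 - l)) = l by omega]
      exact hil
    · intro j
      rw [e' j.val j.isLt]
      exact h6 _ (by have := j.isLt; omega) (by have := j.isLt; omega)

theorem PP_rs (s t : Fin 4) (O E : Finset (Fin 4)) (m : ℕ) (B : Fin (m + 1) → Finset (Fin 4))
    (h : PP s t O E (m + 1) (ex B)) : PP t s O E (m + 1) (ex (rs B)) := by
  have e : ∀ l : ℕ, l < m + 1 → ex (rs B) l = ex B (m - l) := by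
    intro l hl
    have e1 := ex_val (rs B) ⟨l, hl⟩
    rw [show ex (rs B) l = rs B ⟨l, hl⟩ from e1]
    rw [show ex B (m - l) = B ⟨m - l, by omega⟩ from ex_val B ⟨m - l, by omega⟩]
    show B _ = B _
    apply congrArg B
    apply Fin.ext
    show m + 1 - (l + 1) = m - l
    omega
  obtain ⟨k, p, hkp, hpN, h1, h2, h3, h4, h5, h6⟩ := h
  refine ⟨m - p, m - k, by omega, by omega, ?_, ?_, ?_, ?_, ?_, ?_⟩
  · rw [e _ (by omega), show m - (m - p) = p by omega]
    exact h3
  · intro l hl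
    rw [e _ (by omega)]
    exact h4 _ (by omega) (by omega)
  · rw [e _ (by omega), show m - (m - k) = k by omega]
    exact h1
  · intro l hl hlN
    rw [e _ (by omega)]
    exact h2 _ (by omega)
  · intro i hi
    obtain ⟨l, hl, hlp, hil⟩ := h5 i hi
    refine ⟨m - l, by omega, by omega, ?_⟩
    rw [e _ (by omega), show m - (m - l) = l by omega]
    exact hil
  · intro l hl hlp
    rw [e _ (by omega)]
    exact h6 _ (by omega) (by omega)

theorem rs_rs {m : ℕ} (B : Fin (m + 1) → Finset (Fin 4)) : rs (rs B) = B := by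
  funext j
  show B (Fin.rev (Fin.rev j)) = B j
  rw [Fin.rev_rev]

theorem PP_rs_iff (s t : Fin 4) (O E : Finset (Fin 4)) (m : ℕ)
    (B : Fin (m + 1) → Finset (Fin 4)) :
    PP s t O E (m + 1) (ex B) ↔ PP t s O E (m + 1) (ex (rs B)) := by
  constructor
  · exact PP_rs s t O E m B
  · intro h
    have := PP_rs t s O E m (rs B) h
    rwa [rs_rs] at this

theorem ex_succ {m : ℕ} (A : Fin (m + 2) → Finset (Fin 4)) {l : ℕ} (hl : l < m + 1) :
    ex (fun j : Fin (m + 1) => A j.succ) l = A (Fin.ofNat (m + 2) (l + 1)) := by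
  have h1 := ex_val (fun j : Fin (m + 1) => A j.succ) ⟨l, hl⟩
  rw [show ex (fun j : Fin (m + 1) => A j.succ) l = A (Fin.succ ⟨l, hl⟩) from h1]
  rw [ofNat_of_lt (show l + 1 < m + 1 + 1 by omega)]
  rfl

theorem P2_iff (O E : Finset (Fin 4)) (m : ℕ) (A : Fin (m + 2) → Finset (Fin 4)) :
    P2 O E A ↔ PP 3 2 O E (m + 1) (ex (fun j : Fin (m + 1) => A j.succ)) := by
  constructor
  · rintro ⟨k, p, ⟨hk0, hkn, hk, hkl⟩, ⟨hp0, hpn, hp, hpl⟩, hkp, h5, h6⟩
    refine ⟨k - 1, p - 1, by omega, by omega, ?_, ?_, ?_, ?_, ?_, ?_⟩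
    · rw [ex_succ A (by omega), show k - 1 + 1 = k by omega]
      exact hk
    · intro l hl
      rw [ex_succ A (by omega)]
      exact hkl _ (by omega) (by omega)
    · rw [ex_succ A (by omega), show p - 1 + 1 = p by omega]
      exact hp
    · intro l hl hlN
      rw [ex_succ A (by omega)]
      exact hpl _ (by omega) (by omega)
    · intro i hi
      obtain ⟨l, hl, hlp, hil⟩ := h5 i hi
      refine ⟨l - 1, by omega, by omega, ?_⟩
      rw [ex_succ A (by omega), show l - 1 + 1 = l by omega]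
      exact hil
    · intro l hl hlp
      rw [ex_succ A (by omega)]
      exact h6 _ (by omega) (by omega)
  · rintro ⟨k, p, hkp, hpN, h1, h2, h3, h4, h5, h6⟩
    rw [ex_succ A (by omega)] at h1 h3
    refine ⟨k + 1, p + 1, ⟨by omega, by omega, h1, ?_⟩, ⟨by omega, by omega, h3, ?_⟩, by omega,
      ?_, ?_⟩
    · intro l hl0 hl
      have := h2 (l - 1) (by omega)
      rwa [ex_succ A (by omega), show l - 1 + 1 = l by omega] at this
    · intro l hl0 hl
      have := h4 (l - 1) (by omega) (by omega)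
      rwa [ex_succ A (by omega), show l - 1 + 1 = l by omega] at this
    · intro i hi
      obtain ⟨l, hl, hlp, hil⟩ := h5 i hi
      rw [ex_succ A (by omega)] at hil
      exact ⟨l + 1, by omega, by omega, hil⟩
    · intro l hl hlp
      have := h6 (l - 1) (by omega) (by omega)
      rwa [ex_succ A (by omega), show l - 1 + 1 = l by omega] at this

theorem vis_nat {O E : Finset (Fin 4)} {m : ℕ} (A : Fin (m + 2) → Finset (Fin 4)) :
    Vis O E (fun j : Fin (m + 1) => A j.succ) ↔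
      (∀ s ∈ O, ∃ l : ℕ, 0 < l ∧ l < m + 2 ∧ s ∈ A (Fin.ofNat (m + 2) l)) ∧
      ∀ l : ℕ, 0 < l → l < m + 2 → Disjoint (A (Fin.ofNat (m + 2) l)) E := by
  have e : ∀ l (hl : l < m + 1), A (Fin.ofNat (m + 2) (l + 1)) = A (Fin.succ ⟨l, hl⟩) := by
    intro l hl
    rw [ofNat_of_lt (show l + 1 < m + 1 + 1 by omega)]
    rfl
  constructor
  · rintro ⟨h1, h2⟩
    refine ⟨fun s hs => ?_, fun l h0 hl => ?_⟩
    · obtain ⟨j, hj⟩ := h1 s hs
      exact ⟨j.val + 1, by omega, by have := j.isLt; omega, by rw [e j.val j.isLt]; exact hj⟩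
    · have := h2 ⟨l - 1, by omega⟩
      have e1 := e (l - 1) (by omega)
      rw [show l - 1 + 1 = l by omega] at e1
      rw [e1]
      exact this
  · rintro ⟨h1, h2⟩
    refine ⟨fun s hs => ?_, fun j => ?_⟩
    · obtain ⟨l, h0, hl, hsl⟩ := h1 s hs
      have e1 := e (l - 1) (by omega)
      rw [show l - 1 + 1 = l by omega] at e1
      rw [e1] at hsl
      exact ⟨_, hsl⟩
    · have := h2 (j.val + 1) (by omega) (by have := j.isLt; omega)
      rw [e j.val j.isLt] at this
      exact this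

theorem ex_fs {n : ℕ} [NeZero n] (A : Fin n → Finset (Fin 4)) {k : ℕ} (h0 : 0 < k) (h1 : k < n)
    (h2 : 3 ∈ A (Fin.ofNat n k)) : ∃ k', Fs A k' ∧ k' ≤ k := by
  classical
  have hex : ∃ k, 0 < k ∧ k < n ∧ 3 ∈ A (Fin.ofNat n k) := ⟨k, h0, h1, h2⟩
  refine ⟨Nat.find hex, ⟨(Nat.find_spec hex).1, (Nat.find_spec hex).2.1, (Nat.find_spec hex).2.2,
    fun l hl0 hl hc => ?_⟩, Nat.find_min' hex ⟨h0, h1, h2⟩⟩
  exact Nat.find_min hex hl ⟨hl0, hl.trans (Nat.find_spec hex).2.1, hc⟩

theorem ex_ls {n : ℕ} [NeZero n] (A : Fin n → Finset (Fin 4)) {k : ℕ} (h0 : 0 < k) (h1 : k < n)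
    (h2 : 2 ∈ A (Fin.ofNat n k)) : ∃ k', Ls A k' ∧ k ≤ k' := by
  classical
  have hex : ∃ d, 0 < n - 1 - d ∧ d < n ∧ 2 ∈ A (Fin.ofNat n (n - 1 - d)) :=
    ⟨n - 1 - k, by omega, by omega, by rw [show n - 1 - (n - 1 - k) = k by omega]; exact h2⟩
  have hs := Nat.find_spec hex
  have hm : Nat.find hex ≤ n - 1 - k := Nat.find_min' hex
    ⟨by omega, by omega, by rw [show n - 1 - (n - 1 - k) = k by omega]; exact h2⟩
  refine ⟨n - 1 - Nat.find hex, ⟨hs.1, by omega, hs.2.2, fun l hl0 hl hc => ?_⟩, by omega⟩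
  exact Nat.find_min hex (m := n - 1 - l) (by omega)
    ⟨by omega, by omega, by rw [show n - 1 - (n - 1 - l) = l by omega]; exact hc⟩

theorem rco : RcoStatement := by
  intro O E m hO _ _
  refine ⟨fun A => ?_, fun B => ?_, fun A => ⟨⟨?_, ?_⟩, ?_⟩, fun A => ⟨?_, ?_⟩⟩
  · rw [P2_iff]
    exact (nest 3 2 hO m _).symm
  · rw [nest 2 3 hO m (rs B), ← PP_rs_iff 3 2 O E m B]
    exact nest 3 2 hO m B
  · intro h
    by_cases hd : ∀ j, Disjoint (A j) E
    · left
      refine ⟨?_, hd⟩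
      obtain ⟨k, p, ⟨hk0, hkn, hk, -⟩, ⟨hp0, hpn, hp, -⟩, hkp, h5, -⟩ := h
      exact ⟨k, p, hk0, hkp, hpn, hk, hp, h5⟩
    · right
      exact ⟨h, not_forall.mp hd⟩
  · rintro (⟨⟨a, b, ha0, hab, hbn, h3, h2, hO'⟩, hd⟩ | h)
    · obtain ⟨k, hk, hka⟩ := ex_fs A ha0 (by omega) h3
      obtain ⟨p, hp, hpb⟩ := ex_ls A (by omega) hbn h2
      refine ⟨k, p, hk, hp, by omega, fun s hs => ?_, fun l _ _ => hd _⟩
      obtain ⟨l, hl, hlb, hsl⟩ := hO' s hs
      exact ⟨l, by omega, by omega, hsl⟩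
    · exact h.1
  · rintro ⟨⟨-, hd⟩, -, j, hj⟩
    exact hj (hd j)
  · intro h
    by_cases hd : ∀ l : ℕ, 0 < l → l < m + 2 → Disjoint (A (Fin.ofNat (m + 2) l)) E
    · left
      rw [vis_nat]
      refine ⟨fun s hs => ?_, hd⟩
      obtain ⟨k, p, ⟨hk0, hkn, hk, -⟩, ⟨hp0, hpn, hp, -⟩, hkp, h5, -⟩ := h
      obtain ⟨l, hl, hlp, hsl⟩ := h5 s hs
      exact ⟨l, by omega, by omega, hsl⟩
    · right
      left
      push Not at hd
      obtain ⟨l, h0, hl, hd⟩ := hd
      exact ⟨h, l, h0, hl, hd⟩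
  · intro h
    by_cases hp : P2 O E A
    · exact Or.inl hp
    · right
      right
      rw [vis_nat] at h
      exact ⟨hp, h.1, h.2⟩

end Pool.Agent.XQ.K4.H46
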