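import Pool.Agent.Helper36_XQ.Stmt5r

/-!
Squad XQ, part E4, module RRV: reversal of a chain (helper46).
-/

set_option autoImplicit false

namespace Pool.Agent.XQ.K4.H46

open MeasureTheory Complex Filter Topology ProbabilityTheory Pool.Agent.H16Iso Pool.Agent.H62T
  Pool.Agent.H16F Pool.Agent.H38KL Pool.Agent.AEU
open scoped ENNReal NNReal

theorem kA_comm (u : Fin 4 → ℂ) (h : Fin 4 → ℝ) (A : Finset (Fin 4)) {t : ℝ} (ht : 0 < t)
    (x y : ℂ) : kA u h A t x y = kA u h A t y x := by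
  unfold kA pB
  refine Finset.sum_congr rfl fun B _ => ?_
  rw [((H8.pdk _ (dm_open u h (Aᶜ ∪ B))).2 t ht).2.2.1 x y]

theorem cw_rs (u : Fin 4 → ℂ) (h : Fin 4 → ℝ) (m : ℕ) (A : Fin (m + 1) → Finset (Fin 4))
    (τ : Fin (m + 1) → ℝ) (x y : ℂ) (hτ : ∀ j, 0 < τ j) (z : Fin m → ℂ) :
    cw u h (rs τ) (rs A) y z x = cw u h τ A x (z ∘ Fin.rev) y := by
  unfold cw
  rw [← Equiv.prod_comp Fin.revPerm]
  refine Finset.prod_congr rfl fun j _ => ?_
  rw [Fin.revPerm_apply]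
  have e1 : (Fin.cons y z : Fin (m + 1) → ℂ) (Fin.rev j)
      = (Fin.snoc (z ∘ Fin.rev) y : Fin (m + 1) → ℂ) j := Fin.cons_rev y z j
  have e2 : (Fin.snoc z x : Fin (m + 1) → ℂ) (Fin.rev j)
      = (Fin.cons x (z ∘ Fin.rev) : Fin (m + 1) → ℂ) j := Fin.snoc_rev x z j
  rw [e1, e2]
  have e3 : rs τ (Fin.rev j) = τ j := by
    show τ (Fin.rev (Fin.rev j)) = τ j
    rw [Fin.rev_rev]
  have e4 : rs A (Fin.rev j) = A j := by
    show A (Fin.rev (Fin.rev j)) = A j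
    rw [Fin.rev_rev]
  rw [e3, e4, kA_comm u h (A j) (hτ j)]

theorem lint_rev (m : ℕ) (f : (Fin m → ℂ) → ℝ≥0∞) :
    ∫⁻ z : Fin m → ℂ, f (z ∘ Fin.rev) = ∫⁻ z : Fin m → ℂ, f z := by
  have hmp := volume_measurePreserving_piCongrLeft (fun _ : Fin m => ℂ) (Fin.revPerm (n := m))
  have he : ∀ z : Fin m → ℂ,
      (MeasurableEquiv.piCongrLeft (fun _ : Fin m => ℂ) (Fin.revPerm (n := m))) z
        = z ∘ Fin.rev := by
    intro z
    funext i
    have := Equiv.piCongrLeft_apply_apply (P := fun _ : Fin m => ℂ) (Fin.revPerm (n := m)) z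
      (Fin.rev i)
    rw [Fin.revPerm_apply, Fin.rev_rev] at this
    rw [MeasurableEquiv.coe_piCongrLeft]
    exact this
  have h1 := hmp.lintegral_comp_emb
    (MeasurableEquiv.measurableEmbedding
      (MeasurableEquiv.piCongrLeft (fun _ : Fin m => ℂ) (Fin.revPerm (n := m)))) f
  rw [← h1]
  refine lintegral_congr fun z => ?_
  rw [he]

theorem rs_rs' {m : ℕ} {β : Type} (B : Fin (m + 1) → β) : rs (rs B) = B := by
  funext j
  show B (Fin.rev (Fin.rev j)) = B j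
  rw [Fin.rev_rev]

theorem rrv : RrvStatement := by
  classical
  intro u h m R τ x y hu hτ
  unfold Cs
  let e : (Fin (m + 1) → Finset (Fin 4)) ≃ (Fin (m + 1) → Finset (Fin 4)) :=
    ⟨rs, rs, rs_rs', rs_rs'⟩
  rw [← Equiv.sum_comp e (fun A : Fin (m + 1) → Finset (Fin 4) =>
    if R (rs A) then ∫⁻ z : Fin m → ℂ, cw u h (rs τ) A y z x else 0)]
  refine Finset.sum_congr rfl fun A _ => ?_
  show (if R A then _ else _) = if R (rs (rs A)) then
    ∫⁻ z : Fin m → ℂ, cw u h (rs τ) (rs A) y z x else 0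
  rw [rs_rs']
  refine if_congr Iff.rfl ?_ rfl
  rw [← lint_rev m (fun z => cw u h τ A x z y)]
  refine lintegral_congr fun z => ?_
  exact (cw_rs u h m A τ x y hτ z).symm

end Pool.Agent.XQ.K4.H46
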